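import Pool.Agent.Bous.StatementProof

open MeasureTheory Set Filter Topology
open scoped ENNReal

namespace Pool.Agent.Results.MP_e4edaa_an.TemperatureProjectionFull

open Pool.Agent.Bous

/-- The temperature projection of the weak sigma-attractor of the semi-dissipative 2D Boussinesq
system is the set of all mean-free square integrable functions (so it is dense), both for the
family of all weak solutions and for every solution operator. -/
theorem result :
    ∀ L ν g : ℝ, 0 < L → 0 < ν → 0 < g →
      Prod.snd '' FAttractor {s | WeakSol L ν g s} = {φ | SqInt φ ∧ coef φ 0 = 0} ∧
      ∀ S : ℝ → FState → FState, SolutionOperator L ν g S →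
        Prod.snd '' FAttractor (orbits S) = {φ | SqInt φ ∧ coef φ 0 = 0} :=
  Fn.main

end Pool.Agent.Results.MP_e4edaa_an.TemperatureProjectionFull
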